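import Pool.Agent.S821.Levels
import Pool.Agent.S821.PowIdx
import Pool.Agent.S821.Laws2
import Pool.Agent.Q278.KT.Fin

/-!
# Primes between the consecutive odd squares with index near a polynomial in values of multiplicative functions

Let `F_1, …, F_r` be multiplicative functions such as the identity, Euler's function, the sum of the divisors, and let `P` be a
polynomial in `r` variables with integral coefficients and small level sets: at most `C X ^ (r - l + ε)` solutions of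
`P(w) = v` in `[1, X] ^ r`, where `0.612 deg P + κ ≤ l`. Then for all but `N ^ r / (log N) ^ U` of the `m ∈ [1, N] ^ r`, for every `U`,
ALL the integers `k ≥ 1` in the long interval `|k - P(F_1(m_1), …, F_r(m_r))| ≤ N ^ κ` have the property of the question: there
is a prime between the odd squares `(2 k - 1) ^ 2` and `(2 k + 1) ^ 2`; moreover all the intervals of length
`H ≥ k ^ (1 - δ)` between these squares contain at least `c H / log k` primes. This applies to all the linear forms (`l = 1`,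
`κ ≤ 0.388`), to the quadratic polynomials `x_1 ^ 2 + x_2 ^ 2 + Q(x_3, …, x_r)` and `x_1 x_2 + Q(x_3, …, x_r)` (`l = 2`, `κ ≤ 0.776`), and
to the cubic polynomials `x_1 ^ 3 + x_2 ^ 3 + Q(x_3, …, x_r)` (`l = 2`, `κ ≤ 0.164`), for example to all `k` within `N ^ 0.776` of
`φ(a) ^ 2 + φ(b) ^ 2`, and to the sums of two cubes `k = φ(a) ^ 3 + σ(b) ^ 3`, for almost all `a, b`.

Proof. `Pool/Agent/Q278/KT` of the starting library (prepared for another question) bounds the number of separated short intervals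
with few primes, and hence the number of the exceptional `k ≤ X` by `X ^ (0.612 - δ)` (`S821/PowIdx`; form of helper766 in
`U766/OP/Core`). The integer points near the values of `P` in the exceptional set are counted with the level sets, and the tuples
law of `Pool/Agent/N733/TG/T` of the starting library passes to the values of the functions (`S821/Levels`). The values form very
thin sets in general and are taken with large multiplicities, so that bounds for the number of exceptional `k ≤ X` alone do not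
give this.
-/

set_option autoImplicit false

open Finset Filter

namespace Pool.Agent.Results.MP_3a3367_nt.PolynomialValues

open Pool.Agent.N733.TG (LM)

/-- There is a prime strictly between the odd squares `(2 k - 1) ^ 2` and `(2 k + 1) ^ 2`, and every interval `(a, a + H]` between
them with `H ≥ k ^ (1 - δ)` contains at least `c H / log k` primes. -/
def Good (c δ : ℝ) (k : ℕ) : Prop :=
  (∃ p : ℕ, p.Prime ∧ (2 * k - 1) ^ 2 < p ∧ p < (2 * k + 1) ^ 2) ∧
  ∀ a H : ℕ, (2 * k - 1) ^ 2 ≤ a → a + H ≤ (2 * k + 1) ^ 2 → (k : ℝ) ^ (1 - δ) ≤ H →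
    c * H / Real.log k ≤ (((Finset.Ioc a (a + H)).filter Nat.Prime).card : ℝ)

/-- The level sets of `P` in the box `[1, X] ^ r` have at most `C X ^ (r - l + ε)` elements. -/
def SmallLevels {r : ℕ} (P : MvPolynomial (Fin r) ℤ) (l : ℝ) : Prop :=
  l ≤ r ∧ l ≤ P.totalDegree ∧ ∀ ε : ℝ, 0 < ε → ∃ C : ℝ, ∀ X : ℕ, 1 ≤ X → ∀ v : ℤ,
    ({w : Fin r → ℕ | (∀ i, 1 ≤ w i ∧ w i ≤ X) ∧ MvPolynomial.eval (fun i => (w i : ℤ)) P = v}.ncard : ℝ) ≤
      C * (X : ℝ) ^ (r - l + ε)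

lemma levels_iff {r : ℕ} (P : MvPolynomial (Fin r) ℤ) (l : ℝ) : SmallLevels P l ↔ Pool.Agent.S821.Lev.Lev P l := by
  have e : ∀ (X : ℕ) (v : ℤ), {w : Fin r → ℕ | (∀ i, 1 ≤ w i ∧ w i ≤ X) ∧ MvPolynomial.eval (fun i => (w i : ℤ)) P = v} =
      (((Pool.Agent.N733.TG.Box r X).filter (fun w => Pool.Agent.S821.PT.val P w = v) : Finset (Fin r → ℕ)) :
        Set (Fin r → ℕ)) := by
    intro X v
    ext w
    rw [mem_coe, mem_filter, Pool.Agent.N733.TG.mem_Box]
    rfl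
  unfold SmallLevels Pool.Agent.S821.Lev.Lev
  simp only [e, Set.ncard_coe_finset]

/-- the polynomial `A + Q(x_3, …)` -/
noncomputable def ext {r : ℕ} (A : MvPolynomial (Fin (r + 2)) ℤ) (Q : MvPolynomial (Fin r) ℤ) : MvPolynomial (Fin (r + 2)) ℤ :=
  A + MvPolynomial.rename (fun i : Fin r => i.succ.succ) Q

lemma good_of_rich {c δ : ℝ} (hc : 0 < c) (hδ : 0 < δ) (hδ1 : δ ≤ 1) {k : ℕ} (hk : 2 ≤ k)
    (hkδ : 2 ≤ (k : ℝ) ^ (δ / 2)) (h : Pool.Agent.S821.PowIdx.RichPow c (1 - δ) 2 3 (2 * k)) : Good (c / 2) (δ / 2) k := by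
  have hk2 : (2 : ℝ) ≤ k := by exact_mod_cast hk
  have hk0 : (0 : ℝ) < k := by linarith
  have hlog : 0 < Real.log k := Real.log_pos (by linarith)
  have hw : ∀ a H : ℕ, (2 * k - 1) ^ 2 ≤ a → a + H ≤ (2 * k + 1) ^ 2 → (k : ℝ) ^ (1 - δ / 2) ≤ H →
      c / 2 * H / Real.log k ≤ (((Finset.Ioc a (a + H)).filter Nat.Prime).card : ℝ) := by
    intro a H g1 g2 g3
    have e1 : ((2 * k - 1 : ℕ) : ℝ) = 2 * k - 1 := by
      rw [Nat.cast_sub (by omega)]
      push_cast
      ring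
    have g1' : (2 * (k : ℝ) - 1) ^ 2 ≤ a := by
      rw [← e1]
      exact_mod_cast g1
    have g2' : (a : ℝ) + H ≤ (2 * k + 1) ^ 2 := by exact_mod_cast g2
    have hH : (0 : ℝ) ≤ H := Nat.cast_nonneg _
    have h1 := h a H (by
      rw [Real.rpow_two, show (2 : ℝ) - 1 = 1 by norm_num, Real.rpow_one, abs_le]
      push_cast
      constructor <;> nlinarith) (by
      rw [Real.rpow_two, show (2 : ℝ) - 1 = 1 by norm_num, Real.rpow_one, abs_le]
      push_cast
      constructor <;> nlinarith) (by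
      refine le_trans ?_ g3
      push_cast
      rw [Real.mul_rpow (by norm_num) hk0.le]
      have e2 : (2 : ℝ) ^ (1 - δ) ≤ 2 := by
        calc (2 : ℝ) ^ (1 - δ) ≤ 2 ^ (1 : ℝ) := Real.rpow_le_rpow_of_exponent_le (by norm_num) (by linarith)
          _ = 2 := Real.rpow_one 2
      calc (2 : ℝ) ^ (1 - δ) * (k : ℝ) ^ (1 - δ) ≤ (k : ℝ) ^ (δ / 2) * (k : ℝ) ^ (1 - δ) :=
            mul_le_mul_of_nonneg_right (e2.trans hkδ) (by positivity)
        _ = (k : ℝ) ^ (1 - δ / 2) := by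
            rw [← Real.rpow_add hk0]
            congr 1
            ring)
    refine le_trans ?_ h1
    have hl2 : Real.log ((2 * k : ℕ) : ℝ) ≤ 2 * Real.log k := by
      push_cast
      rw [Real.log_mul (by norm_num) hk0.ne']
      have := Real.log_le_log (by norm_num : (0 : ℝ) < 2) hk2
      linarith
    have hl1 : 0 < Real.log ((2 * k : ℕ) : ℝ) := Real.log_pos (by push_cast; linarith)
    rw [div_le_div_iff₀ hlog hl1]
    calc c / 2 * H * Real.log ((2 * k : ℕ) : ℝ) ≤ c / 2 * H * (2 * Real.log k) := by gcongr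
      _ = c * H * Real.log k := by ring
  refine ⟨?_, hw⟩
  have hkk : (k : ℝ) ^ (1 - δ / 2) ≤ k := by
    calc (k : ℝ) ^ (1 - δ / 2) ≤ (k : ℝ) ^ (1 : ℝ) := Real.rpow_le_rpow_of_exponent_le (by linarith) (by linarith)
      _ = k := Real.rpow_one _
  obtain ⟨j, rfl⟩ : ∃ j, k = j + 1 := ⟨k - 1, by omega⟩
  have e3 : 2 * (j + 1) - 1 = 2 * j + 1 := by omega
  have h4 := hw ((2 * (j + 1) - 1) ^ 2) (j + 1) le_rfl (by rw [e3]; nlinarith) hkk
  have h6 : (0 : ℝ) < (((Finset.Ioc ((2 * (j + 1) - 1) ^ 2) ((2 * (j + 1) - 1) ^ 2 + (j + 1))).filter Nat.Prime).card : ℝ) :=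
    lt_of_lt_of_le (by positivity) h4
  obtain ⟨p, hp⟩ := card_pos.1 (by exact_mod_cast h6 :
    0 < ((Finset.Ioc ((2 * (j + 1) - 1) ^ 2) ((2 * (j + 1) - 1) ^ 2 + (j + 1))).filter Nat.Prime).card)
  rw [mem_filter, mem_Ioc] at hp
  obtain ⟨⟨h7, h8⟩, h9⟩ := hp
  refine ⟨p, h9, h7, lt_of_le_of_lt h8 ?_⟩
  rw [e3]
  nlinarith

/-- **Primes between the odd squares near polynomials in several values.** There are `c > 0` and `δ > 0` such that for all functions
`F_1, …, F_r` of the class `LM`, all polynomials `P` in `r` variables with integral coefficients and small level sets,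
`SmallLevels P l` with `l > 0`, all `κ ≥ 0` with `0.612 deg P + κ ≤ l` and every `U`, for large `N`: for all but at most
`N ^ r / (log N) ^ U` of the `m ∈ [1, N] ^ r`, ALL the integers `k ≥ 1` with `|k - P(F_1(m_1), …, F_r(m_r))| ≤ N ^ κ` are good: there
is a prime between `(2 k - 1) ^ 2` and `(2 k + 1) ^ 2`, and every interval between these squares of length `H ≥ k ^ (1 - δ)` contains
at least `c H / log k` primes. The nonconstant polynomials have `SmallLevels P 1`, and the polynomials `x_1 ^ 2 + x_2 ^ 2 + Q`,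
`x_1 x_2 + Q`, `x_1 ^ 3 + x_2 ^ 3 + Q` with an arbitrary polynomial `Q` in further variables have `SmallLevels P 2`; the identity,
Euler's function and the sum of the divisors belong to the class `LM`. -/
theorem result :
    (∃ c δ : ℝ, 0 < c ∧ 0 < δ ∧ ∀ (r : ℕ) (F : Fin r → ℕ → ℕ), (∀ i, LM (F i)) →
      ∀ (P : MvPolynomial (Fin r) ℤ) (l κ : ℝ), SmallLevels P l → 0 < l → 0 ≤ κ → 0.612 * P.totalDegree + κ ≤ l →
        ∀ U : ℕ, ∃ N₀ : ℕ, ∀ N : ℕ, N₀ ≤ N →
          ({m : Fin r → ℕ | (∀ i, 1 ≤ m i ∧ m i ≤ N) ∧ ¬ ∀ k : ℕ, 1 ≤ k →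
            |(k : ℝ) - (MvPolynomial.eval (fun i => (F i (m i) : ℤ)) P : ℤ)| ≤ (N : ℝ) ^ κ → Good c δ k}.ncard : ℝ) ≤
              (N : ℝ) ^ r / Real.log N ^ U) ∧
    (∀ (r : ℕ) (P : MvPolynomial (Fin r) ℤ), (∀ c : ℤ, P ≠ MvPolynomial.C c) → SmallLevels P 1) ∧
    (∀ (r : ℕ) (Q : MvPolynomial (Fin r) ℤ), SmallLevels (ext (MvPolynomial.X 0 ^ 2 + MvPolynomial.X 1 ^ 2) Q) 2 ∧
      SmallLevels (ext (MvPolynomial.X 0 * MvPolynomial.X 1) Q) 2 ∧
      SmallLevels (ext (MvPolynomial.X 0 ^ 3 + MvPolynomial.X 1 ^ 3) Q) 2) ∧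
    (LM (fun m => m) ∧ LM Nat.totient ∧ LM (fun m => ∑ d ∈ m.divisors, d)) := by
  obtain ⟨e1, -, -⟩ := Pool.Agent.S821.Laws.examples
  refine ⟨?_, fun r P hP => (levels_iff P 1).2 (Pool.Agent.S821.Lev.lev_one P hP), fun r Q => ?_, e1⟩
  swap
  · obtain ⟨h1, h2, h3⟩ := Pool.Agent.S821.Lev.examples Q
    exact ⟨(levels_iff _ _).2 h1, (levels_iff _ _).2 h2, (levels_iff _ _).2 h3⟩
  obtain ⟨c, δ, hc, hδ, hδ1, h⟩ := Pool.Agent.S821.PowIdx.bad_powers Pool.Agent.Q278.KT.mainp_half (by norm_num)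
    (by norm_num) (by norm_num) (by norm_num)
  obtain ⟨C, hC, hB⟩ := h 2 3 (by norm_num) (by norm_num) (by norm_num)
  have e : (2 : ℝ) * (1 - 1 / 2) - δ = 1 - δ := by ring
  rw [e] at hB
  refine ⟨c / 2 / 2, δ / 2, by positivity, by positivity, fun r F hF P l κ hP hl hκ hle U => ?_⟩
  have hP' := (levels_iff P l).1 hP
  have hd1 : (0 : ℝ) < P.totalDegree := lt_of_lt_of_le hl hP.2.1
  obtain ⟨k1, hk1⟩ : ∃ k1 : ℕ, ∀ k : ℕ, k1 ≤ k → 2 ≤ (k : ℝ) ^ (δ / 2) ∧ 2 ≤ k := by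
    have t1 : Tendsto (fun n : ℕ => (n : ℝ) ^ (δ / 2)) atTop atTop :=
      (tendsto_rpow_atTop (by positivity)).comp tendsto_natCast_atTop_atTop
    obtain ⟨k1, hk1⟩ := eventually_atTop.1 ((t1.eventually_ge_atTop 2).and (eventually_ge_atTop 2))
    exact ⟨k1, hk1⟩
  obtain ⟨B, hBdef⟩ : ∃ B : Set ℕ, B = {k : ℕ | 1 ≤ k ∧ ¬ Good (c / 2 / 2) (δ / 2) k} := ⟨_, rfl⟩
  have hcount : ∀ X : ℝ, 1 ≤ X → {b : ℕ | b ∈ B ∧ (b : ℝ) ≤ X}.Finite ∧
      ({b : ℕ | b ∈ B ∧ (b : ℝ) ≤ X}.ncard : ℝ) ≤ (2 * C + k1) * X ^ (2 * 0.306 - δ) := by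
    intro X hX
    obtain ⟨q1, q2⟩ := hB (2 * X) (by linarith)
    obtain ⟨S, hS⟩ : ∃ S, S = {n : ℕ | n ∈ {n : ℕ | ¬ Pool.Agent.S821.PowIdx.RichPow (c / 2) (1 - δ) 2 3 n} ∧
      (n : ℝ) ≤ 2 * X} := ⟨_, rfl⟩
    rw [← hS] at q1 q2
    have hfin1 : {n : ℕ | n < k1}.Finite := Set.finite_Iio k1
    have hfin2 : ((fun n : ℕ => n / 2) '' S).Finite := q1.image _
    have hs : {b : ℕ | b ∈ B ∧ (b : ℝ) ≤ X} ⊆ (fun n : ℕ => n / 2) '' S ∪ {n : ℕ | n < k1} := by
      rintro b ⟨hb1, hb2⟩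
      rw [hBdef] at hb1
      by_cases hlt : b < k1
      · exact Or.inr hlt
      · left
        obtain ⟨g1, g2⟩ := hk1 b (not_lt.1 hlt)
        refine ⟨2 * b, ?_, by show 2 * b / 2 = b; omega⟩
        rw [hS]
        refine ⟨fun hR => ?_, by push_cast; linarith⟩
        exact hb1.2 (good_of_rich (by positivity) hδ (by linarith) g2 g1 hR)
    refine ⟨(hfin2.union hfin1).subset hs, ?_⟩
    have h4 := ((Set.ncard_le_ncard hs (hfin2.union hfin1)).trans (Set.ncard_union_le _ _)).trans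
      (Nat.add_le_add_right (Set.ncard_image_le q1) _)
    have h5 : ({n : ℕ | n < k1}.ncard : ℝ) = k1 := by
      have : {n : ℕ | n < k1} = ((Finset.range k1 : Finset ℕ) : Set ℕ) := by
        ext n
        simp
      rw [this, Set.ncard_coe_finset, card_range]
    have h6 : (1 : ℝ) ≤ X ^ (2 * 0.306 - δ) := Real.one_le_rpow hX (by linarith)
    have h7 : (2 * X) ^ (2 * 0.306 - δ) ≤ 2 * X ^ (2 * 0.306 - δ) := by
      rw [Real.mul_rpow (by norm_num) (by linarith)]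
      refine mul_le_mul_of_nonneg_right ?_ (by positivity)
      calc (2 : ℝ) ^ (2 * 0.306 - δ) ≤ 2 ^ (1 : ℝ) := Real.rpow_le_rpow_of_exponent_le (by norm_num) (by linarith)
        _ = 2 := Real.rpow_one 2
    calc ({b : ℕ | b ∈ B ∧ (b : ℝ) ≤ X}.ncard : ℝ) ≤ (S.ncard : ℝ) + ({n : ℕ | n < k1}.ncard : ℝ) := by exact_mod_cast h4
      _ ≤ C * (2 * X ^ (2 * 0.306 - δ)) + k1 * X ^ (2 * 0.306 - δ) := by
          rw [h5]
          exact add_le_add (q2.trans (mul_le_mul_of_nonneg_left h7 hC)) (le_mul_of_one_le_right (Nat.cast_nonneg _) h6)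
      _ = _ := by ring
  obtain ⟨N₀, hN₀⟩ := Pool.Agent.S821.Lev.level_law hF P hP' B (s := 2 * 0.306 - δ) (κ := κ) (by linarith) hκ
    (by nlinarith) (2 * C + k1) hcount U
  refine ⟨N₀, fun N hN => le_trans (Nat.cast_le.2 (Set.ncard_le_ncard ?_ ?_)) (hN₀ N hN)⟩
  · rintro m ⟨hm, hm2⟩
    refine ⟨hm, ?_⟩
    by_contra hcon
    push Not at hcon
    refine hm2 fun k hk hkP => ?_
    by_contra hbad
    exact absurd hkP (not_le.2 (hcon k (by rw [hBdef]; exact ⟨hk, hbad⟩)))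
  · refine (Set.Finite.pi' fun _ : Fin r => Set.finite_Icc 1 N).subset ?_
    rintro m ⟨hm, -⟩ i
    exact hm i

end Pool.Agent.Results.MP_3a3367_nt.PolynomialValues
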